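import Mathlib

namespace Pool.Agent.Results.MP_6c7e5c_co.Linear

/-- The permutations of `[n]` contained in the word `w` as subsequences. -/
def perms {n : ℕ} (w : List (Fin n)) : Set (Equiv.Perm (Fin n)) :=
  {π | (List.ofFn π).Sublist w}

/-- Minimum length of a word containing at least `m` distinct permutations of `[n]`. -/
noncomputable def h (n m : ℕ) : ℕ :=
  sInf {L | ∃ w : List (Fin n), w.length = L ∧ m ≤ (perms w).ncard}

/-- Least `l` with `m ≤ C(l, n)`. -/
noncomputable def ell (m n : ℕ) : ℕ := sInf {l | m ≤ l.choose n}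

theorem ofFn_sub {α : Type} {a b : ℕ} (f : Fin b → α) (e : Fin a → Fin b) (he : StrictMono e) :
    (List.ofFn (f ∘ e)).Sublist (List.ofFn f) := by
  rw [List.sublist_iff_exists_fin_orderEmbedding_get_eq]
  refine ⟨OrderEmbedding.ofStrictMono
    (fun i => Fin.cast (by simp) (e (Fin.cast (by simp) i))) ?_, ?_⟩
  · intro i j hij
    exact he (a := Fin.cast (by simp) i) (b := Fin.cast (by simp) j) hij
  · intro i
    simp only [List.get_ofFn, OrderEmbedding.coe_ofStrictMono, Function.comp]
    rfl

def W (n k : ℕ) : List (Fin n) := List.ofFn (fun t : Fin (k * n) => (finProdFinEquiv.symm t).2)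

theorem W_len (n k : ℕ) : (W n k).length = k * n := by simp [W]

theorem mem_W {n k : ℕ} (π : Equiv.Perm (Fin n)) (g : Fin n → Fin k)
    (hs : StrictMono fun i => finProdFinEquiv (g i, π i)) : π ∈ perms (W n k) := by
  have := ofFn_sub (fun t : Fin (k * n) => (finProdFinEquiv.symm t).2) _ hs
  have e : ((fun t : Fin (k * n) => (finProdFinEquiv.symm t).2) ∘ fun i => finProdFinEquiv (g i, π i))
      = π := by
    funext i
    simp only [Function.comp, Equiv.symm_apply_apply]
  rw [e] at this
  exact this

theorem all_W (n : ℕ) : perms (W n n) = Set.univ := by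
  refine Set.eq_univ_of_forall fun π => mem_W π id ?_
  intro i j hij
  have h1 : i.val + 1 ≤ j.val := hij
  have h2 := (π i).isLt
  show (π i).val + n * i.val < (π j).val + n * j.val
  nlinarith

theorem count (n k : ℕ) : k ^ n ≤ (perms (W n k)).ncard * 2 ^ (n + k) := by
  classical
  let t : (Fin n → Fin k) → Fin n → Fin (k * n) := fun f a => finProdFinEquiv (f a, a)
  have tinj : ∀ f, Function.Injective (t f) := by
    intro f a b hab
    exact congrArg Prod.snd (finProdFinEquiv.injective hab)
  have hs : ∀ f, StrictMono (t f ∘ Tuple.sort (t f)) := fun f =>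
    (Tuple.monotone_sort (t f)).strictMono_of_injective ((tinj f).comp (Tuple.sort (t f)).injective)
  let g : (Fin n → Fin k) → Fin n → ℕ := fun f i => i.val + (f (Tuple.sort (t f) i)).val
  have hg : ∀ f, StrictMono (g f) := by
    intro f i j hij
    have h1 : (Tuple.sort (t f) i).val + n * (f (Tuple.sort (t f) i)).val <
        (Tuple.sort (t f) j).val + n * (f (Tuple.sort (t f) j)).val := hs f hij
    have h2 := (Tuple.sort (t f) j).isLt
    have h3 : (f (Tuple.sort (t f) i)).val ≤ (f (Tuple.sort (t f) j)).val := by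
      by_contra hc
      have : (f (Tuple.sort (t f) j)).val + 1 ≤ (f (Tuple.sort (t f) i)).val := by omega
      nlinarith
    have h4 : i.val < j.val := hij
    show i.val + _ < j.val + _
    omega
  have := Finset.card_le_card_of_injOn (s := (Finset.univ : Finset (Fin n → Fin k)))
    (t := (perms (W n k)).toFinset ×ˢ (Finset.range (n + k)).powerset)
    (fun f => (Tuple.sort (t f), Finset.univ.image (g f))) ?_ ?_
  · rw [Set.ncard_eq_toFinset_card']
    simpa using this
  · intro f _
    simp only [Finset.coe_product, Set.mem_prod, Finset.mem_coe, Set.mem_toFinset, Finset.mem_powerset]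
    refine ⟨mem_W _ (fun i => f (Tuple.sort (t f) i)) (hs f), ?_⟩
    intro x hx
    obtain ⟨i, _, rfl⟩ := Finset.mem_image.1 hx
    have h1 := i.isLt
    have h2 := (f (Tuple.sort (t f) i)).isLt
    simp only [Finset.mem_range, g]
    omega
  · intro f _ f' _ e
    have e1 : Tuple.sort (t f) = Tuple.sort (t f') := congrArg Prod.fst e
    have e2 : Finset.univ.image (g f) = Finset.univ.image (g f') := congrArg Prod.snd e
    have e3 : g f = g f' := by
      rw [← (hg f).range_inj (hg f')]
      have := congrArg (fun s : Finset ℕ => (s : Set ℕ)) e2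
      simpa using this
    funext a
    obtain ⟨i, rfl⟩ := (Tuple.sort (t f)).surjective a
    have := congrFun e3 i
    simp only [g, ← e1] at this
    exact Fin.ext (by omega)

theorem pow_le (n : ℕ) : n ^ n ≤ 3 ^ n * n.factorial := by
  have h1 := Real.pow_div_factorial_le_exp (n : ℝ) (by positivity) n
  have h2 : Real.exp n ≤ 3 ^ n := by
    rw [← Real.exp_one_pow]
    exact pow_le_pow_left₀ (by positivity) (by have := Real.exp_one_lt_d9; linarith) n
  rw [div_le_iff₀ (by positivity)] at h1
  have : (n : ℝ) ^ n ≤ 3 ^ n * n.factorial :=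
    h1.trans (mul_le_mul_of_nonneg_right h2 (by positivity))
  exact_mod_cast this

theorem ch_ge (n m : ℕ) : m ≤ (n + 1 + m).choose (n + 1) := by
  induction m with
  | zero => simp
  | succ m ih =>
    have : 0 < (n + 1 + m).choose n := Nat.choose_pos (by omega)
    rw [← add_assoc, Nat.choose_succ_succ]
    simp only [Nat.succ_eq_add_one] at *
    omega

theorem result (n m : ℕ) (hn : 1 ≤ n) (hm : 1 ≤ m) (hmn : m ≤ n.factorial) :
    h n m ≤ 13 * ell m n := by
  have hL : m ≤ (ell m n).choose n := by
    refine Nat.sInf_mem (s := {l | m ≤ l.choose n}) ⟨n + m, ?_⟩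
    obtain ⟨j, rfl⟩ : ∃ j, n = j + 1 := ⟨n - 1, by omega⟩
    exact ch_ge j m
  generalize ell m n = L at hL
  have hnL : n ≤ L := by
    by_contra hc
    rw [Nat.choose_eq_zero_of_lt (by omega)] at hL
    omega
  obtain ⟨k, hk1, hk2⟩ : ∃ k, 12 * L ≤ k * n ∧ k * n ≤ 13 * L := by
    refine ⟨12 * L / n + 1, ?_, ?_⟩
    · have := Nat.lt_div_mul_add (a := 12 * L) (b := n) hn
      nlinarith
    · have := Nat.div_mul_le_self (12 * L) n
      nlinarith
  by_cases hkn : k ≤ n
  · refine le_trans (Nat.sInf_le ⟨W n k, W_len n k, ?_⟩) hk2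
    have c1 := count n k
    have c2 : 2 ^ (n + k) ≤ 4 ^ n := by
      rw [show (4 : ℕ) = 2 ^ 2 by norm_num, ← pow_mul]
      exact Nat.pow_le_pow_right (by norm_num) (by omega)
    have c3 : n.factorial * L.choose n ≤ L ^ n := by
      rw [← Nat.descFactorial_eq_factorial_mul_choose]
      exact Nat.descFactorial_le_pow L n
    have c4 := pow_le n
    have c5 : (12 * L) ^ n ≤ (k * n) ^ n := Nat.pow_le_pow_left hk1 n
    have c6 : m * (4 ^ n * n ^ n) ≤ (perms (W n k)).ncard * (4 ^ n * n ^ n) := by
      calc m * (4 ^ n * n ^ n) ≤ L.choose n * (4 ^ n * (3 ^ n * n.factorial)) := by gcongr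
        _ = 12 ^ n * (n.factorial * L.choose n) := by
          rw [show (12 : ℕ) = 4 * 3 by norm_num, mul_pow]; ring
        _ ≤ 12 ^ n * L ^ n := by gcongr
        _ = (12 * L) ^ n := by rw [mul_pow]
        _ ≤ (k * n) ^ n := c5
        _ = k ^ n * n ^ n := by rw [mul_pow]
        _ ≤ ((perms (W n k)).ncard * 4 ^ n) * n ^ n := by
          gcongr
          exact c1.trans (by gcongr)
        _ = _ := by ring
    exact Nat.le_of_mul_le_mul_right c6 (by positivity)
  · refine le_trans (Nat.sInf_le ⟨W n n, W_len n n, ?_⟩) (le_trans ?_ hk2)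
    · rw [all_W, Set.ncard_univ, Nat.card_eq_fintype_card, Fintype.card_perm, Fintype.card_fin]
      exact hmn
    · exact Nat.mul_le_mul_right n (by omega)

end Pool.Agent.Results.MP_6c7e5c_co.Linear
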